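import Mathlib
import Pool.Agent.Helper300.Cont
import Pool.Agent.Run7.h149.HI

set_option autoImplicit false

open Set Topology

namespace Pool.Agent.Results.MP_3d59a4_gt.PseudoArcSquare

/-- A subcontinuum of a (metric) space: a nonempty compact connected subset. -/
def IsSubcontinuum {X : Type} [TopologicalSpace X] (K : Set X) : Prop :=
  IsCompact K ∧ IsConnected K

/-- `K` is decomposable: it is the union of two subcontinua, both different from `K`. -/
def IsDecomposable {X : Type} [TopologicalSpace X] (K : Set X) : Prop :=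
  ∃ A B : Set X, IsSubcontinuum A ∧ IsSubcontinuum B ∧ A ≠ K ∧ B ≠ K ∧ A ∪ B = K

/-- `K` is a hereditarily decomposable continuum: every subcontinuum of `K` with more than one
point is decomposable. -/
def HereditarilyDecomposable {X : Type} [TopologicalSpace X] (K : Set X) : Prop :=
  IsSubcontinuum K ∧ ∀ L : Set X, L ⊆ K → IsSubcontinuum L → L.Nontrivial → IsDecomposable L

/-- a hereditarily decomposable continuum has degenerate image under every map into a space in which
every two subcontinua with a common point are nested -/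
theorem degenerate {X Z : Type} [TopologicalSpace X] [T2Space X] [TopologicalSpace Z] [T2Space Z]
    (hN : ∀ K L : Set Z, IsClosed K → IsClosed L → IsPreconnected K → IsPreconnected L →
      (K ∩ L).Nonempty → K ⊆ L ∨ L ⊆ K)
    {f : X → Z} (hf : Continuous f) {K : Set X} (hK : HereditarilyDecomposable K) :
    (f '' K).Subsingleton := by
  by_contra hcon
  rw [not_subsingleton_iff] at hcon
  obtain ⟨L, hLK, hL⟩ := zorn_superset_nonempty
    {L : Set X | IsSubcontinuum L ∧ f '' L = f '' K}
    (by
      intro c hcS hchain hne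
      refine ⟨⋂₀ c, ⟨⟨?_, ?_, ?_⟩, ?_⟩, fun s hs => sInter_subset_of_mem hs⟩
      · obtain ⟨s0, hs0⟩ := hne
        exact (hcS hs0).1.1.of_isClosed_subset
          (isClosed_sInter fun s hs => (hcS hs).1.1.isClosed) (sInter_subset_of_mem hs0)
      · have : Nonempty c := hne.to_subtype
        rw [sInter_eq_iInter]
        refine IsCompact.nonempty_iInter_of_directed_nonempty_isCompact_isClosed _ ?_
          (fun s => (hcS s.2).1.2.nonempty) (fun s => (hcS s.2).1.1)
          (fun s => (hcS s.2).1.1.isClosed)
        intro a b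
        rcases hchain.total a.2 b.2 with h | h
        · exact ⟨a, subset_rfl, h⟩
        · exact ⟨b, h, subset_rfl⟩
      · exact Pool.Agent.Helper300.Cont.isPreconnected_sInter hchain hne (fun s hs => (hcS hs).1.1)
          (fun s hs => (hcS hs).1.2.isPreconnected)
      · apply Subset.antisymm
        · obtain ⟨s0, hs0⟩ := hne
          rw [← (hcS hs0).2]
          exact image_mono (sInter_subset_of_mem hs0)
        · intro z hz
          have : Nonempty c := hne.to_subtype
          obtain ⟨x, hx⟩ := IsCompact.nonempty_iInter_of_directed_nonempty_isCompact_isClosed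
            (fun s : c => (s : Set X) ∩ f ⁻¹' {z})
            (by
              intro a b
              rcases hchain.total a.2 b.2 with h | h
              · exact ⟨a, subset_rfl, inter_subset_inter_left _ h⟩
              · exact ⟨b, inter_subset_inter_left _ h, subset_rfl⟩)
            (fun s => by
              rw [← (hcS s.2).2] at hz
              obtain ⟨x, hx, hxz⟩ := hz
              exact ⟨x, hx, hxz⟩)
            (fun s => (hcS s.2).1.1.inter_right (isClosed_singleton.preimage hf))
            (fun s => (hcS s.2).1.1.isClosed.inter (isClosed_singleton.preimage hf))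
          have hx' := mem_iInter.1 hx
          refine ⟨x, mem_sInter.2 fun s hs => (hx' ⟨s, hs⟩).1, (hx' this.some).2⟩)
    K ⟨hK.1, rfl⟩
  obtain ⟨hLS, hLmin⟩ := hL
  obtain ⟨⟨hLc, hLconn⟩, hLim⟩ := hLS
  have hLnt : L.Nontrivial := by
    rw [← hLim] at hcon
    exact nontrivial_of_image f L hcon
  obtain ⟨A, B, hA, hB, hAL, hBL, hAB⟩ := hK.2 L hLK ⟨hLc, hLconn⟩ hLnt
  have hAsub : A ⊆ L := hAB ▸ subset_union_left
  have hBsub : B ⊆ L := hAB ▸ subset_union_right
  -- the two images are nested
  have himg : f '' A ∪ f '' B = f '' L := by rw [← image_union, hAB]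
  have hmeet : (A ∩ B).Nonempty := by
    have h1 := isPreconnected_closed_iff.1 hLconn.isPreconnected A B hA.1.isClosed hB.1.isClosed
      (by rw [hAB]) (by rw [inter_eq_right.2 hAsub]; exact hA.2.nonempty)
      (by rw [inter_eq_right.2 hBsub]; exact hB.2.nonempty)
    exact h1.mono inter_subset_right
  obtain ⟨x, hxA, hxB⟩ := hmeet
  have hn := hN (f '' A) (f '' B) (hA.1.image hf).isClosed (hB.1.image hf).isClosed
    (hA.2.isPreconnected.image f hf.continuousOn) (hB.2.isPreconnected.image f hf.continuousOn)
    ⟨f x, ⟨x, hxA, rfl⟩, ⟨x, hxB, rfl⟩⟩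
  rcases hn with h | h
  · have h1 : f '' B = f '' K := by rw [← hLim, ← himg, union_eq_right.2 h]
    exact hBL (Subset.antisymm hBsub (hLmin ⟨hB, h1⟩ hBsub))
  · have h1 : f '' A = f '' K := by rw [← hLim, ← himg, union_eq_left.2 h]
    exact hAL (Subset.antisymm hAsub (hLmin ⟨hA, h1⟩ hAsub))

/-- There is a nondegenerate metric continuum `X` (the pseudo-arc) such that no two distinct points
of `X × X` lie in a hereditarily decomposable subcontinuum of `X × X`. -/
theorem result : ∃ (X : Type) (_ : MetricSpace X), CompactSpace X ∧ ConnectedSpace X ∧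
    Nontrivial X ∧ ∀ p q : X × X, p ≠ q →
      ¬ ∃ K : Set (X × X), HereditarilyDecomposable K ∧ p ∈ K ∧ q ∈ K := by
  refine ⟨Run7.h149.PA, inferInstance, inferInstance, inferInstance, inferInstance, ?_⟩
  rintro p q hpq ⟨K, hK, hp, hq⟩
  have hN : ∀ K L : Set Run7.h149.PA, IsClosed K → IsClosed L → IsPreconnected K →
      IsPreconnected L → (K ∩ L).Nonempty → K ⊆ L ∨ L ⊆ K := by
    rintro K L hK hL cK cL ⟨x, hx, hx'⟩
    exact Run7.h149.nested hK hL cK cL hx hx'
  apply hpq
  apply Prod.ext
  · exact degenerate hN continuous_fst hK ⟨p, hp, rfl⟩ ⟨q, hq, rfl⟩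
  · exact degenerate hN continuous_snd hK ⟨p, hp, rfl⟩ ⟨q, hq, rfl⟩

end Pool.Agent.Results.MP_3d59a4_gt.PseudoArcSquare
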